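import Pool.Agent.H942.DP.Final

set_option autoImplicit false

/-! # Denef's question for powers of the discriminant times resultants, EVERY prime

The affine space of dimension `n` of the monic polynomials `h = T ^ n + x_{n-1} T ^ (n-1) + ⋯ + x_0`
(`Polynomial.freeMonic ℤ n`) carries the discriminant `disc h` and, for every nonzero `G ∈ ℤ[T]`, the
resultant `Res(h, G)`, which is up to sign the product of the values of `G` at the roots of `h`. Let

  `f = disc(h) ^ a * Res(h, G) ∈ ℤ[x_0, …, x_{n-1}]`, `a ≥ 1`, `n ≥ 1`.

`G` is arbitrary: for instance `G = 1`, `f = disc(h) ^ a`, or `G = c ∏ G_j ^ (b_j)` with irreducible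
polynomials `G_j` of any degrees. The hypersurface `f = 0` is the union of the discriminant and of the
hypersurfaces (twisted forms of families of tangent hyperplanes of the discriminant) of the `h` with a
common root with `G_j`; its singularities are far from isolated, and it may be arbitrarily bad modulo
`p`: `p` may divide `n!`, the discriminants of the `G_j`, or the content of `G`.

For EVERY prime `p` the poles `T₀` of Igusa's Poincaré series of `f` are determined up to finitely many
values of `t₀ = - log |T₀| / log p`: `t₀ = - (m + 2) / (2 a m)`, `2 ≤ m ≤ n`, or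
`t₀ = - (m + 1) / (2 (a (m - 1) + b))`, `1 ≤ m ≤ n`, `b` the multiplicity of a complex root of `G`; and
`t₀` is always a root of the Bernstein-Sato polynomial of `f`, which is Denef's question.

Method (all in `Pool/Agent/H942/DP/`). Let `K` range over the finite extensions of `ℚ_p` in a fixed
algebraic closure and consider the generating series of the volumes of the level sets of
`|f|_K ^ [K : ℚ_p]` in compact open sets of integral monic polynomials over `K` of degree `n`. By
induction on `n` this series is shown to be rational with denominator a product of factors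
`1 - p ^ (-ν) T ^ N` with explicit `(ν, N)`, for all `K` at once:
* near a product of two coprime monic polynomials the multiplication of polynomials is a chart
  (p-adic inverse function theorem with volumes, `Ift`, `Chart`, `Alpha`);
* near a power `g ^ e` of an irreducible polynomial `g` of degree `d ≥ 2` the norm map
  `h ↦ N_{K'/K}(h)`, `K' = K[T] / (g)`, from the polynomials of degree `e` over `K'` to the
  polynomials of degree `d e` over `K` is a chart which changes `|f|` only by a locally constant factor
  (`Ext`, `Beta`); here the field changes, also if `p` divides `e` or `K' / K` is wildly ramified;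
* near `(T - c) ^ n` translations and the homothety `T ↦ p T` give a functional equation of the series
  (`Box`, `Main`, `Induct`, `Fold`); no division by `n` is used, so that `p ≤ n` is allowed.
The passage between volumes and numbers of solutions is in `Link1`; that `T₀ = 1` is no pole is from the
starting library (`W425.PZ`, `W195.PZ`). The roots of the Bernstein-Sato polynomial are those of the
library theorem `MP_a2a574_ag.DiscriminantPowers`, for `f` over `ℂ` (`Link2`). -/

namespace Pool.Agent.Results.MP_5d9b3c_ag.DiscriminantTimesResultant

open Pool.Agent.H628R4.TP (IsBFunction)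
open Pool.Agent.W206.CU (poincare IsPoleOfOrder)

/-- The polynomial `f = disc(h) ^ a * Res(h, G)` in the coefficients `x_0, …, x_{n-1}` of the monic
polynomial `h = T ^ n + x_{n-1} T ^ (n-1) + ⋯ + x_0`. -/
noncomputable def discRes (n a : ℕ) (G : Polynomial ℤ) : MvPolynomial (Fin n) ℤ :=
  (Polynomial.freeMonic ℤ n).discr ^ a *
    Polynomial.resultant (Polynomial.freeMonic ℤ n) (G.map MvPolynomial.C) n G.natDegree

/-- **Denef's question for `f = disc(h) ^ a * Res(h, G)`, every prime `p`.** `poincare p f` is Igusa's
Poincaré series `∑_m a_m (p ^ (-n) T) ^ m`, `a_m` the number of zeros of `f` modulo `p ^ m`.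
`IsPoleOfOrder P T₀ μ`, `μ > 0`: `P` is the expansion of a rational function with a pole of order `μ`
at `T₀`. `IsBFunction f b`: `b(s) f ^ s = P(s) f ^ (s + 1)` with `P(s)` in the Weyl algebra, polynomial
in `s`; the Bernstein-Sato polynomial is one of these `b`. The numbers `b` in the list of the candidates
are the multiplicities of the complex roots `w` of `G`. -/
theorem result (n a : ℕ) (hn : 1 ≤ n) (ha : 1 ≤ a) (G : Polynomial ℤ) (hG : G ≠ 0) (p : ℕ)
    (hp : p.Prime) (T₀ : ℂ) (μ : ℕ) (hμ : 0 < μ)
    (hT : IsPoleOfOrder (poincare p (discRes n a G)) T₀ μ) :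
    ((∃ m : ℕ, 2 ≤ m ∧ m ≤ n ∧
      -Real.log ‖T₀‖ / Real.log p = -(((m : ℝ) + 2) / (2 * a * m))) ∨
    ∃ (m : ℕ) (w : ℂ), 1 ≤ m ∧ m ≤ n ∧
      1 ≤ (G.map (Int.castRingHom ℂ)).rootMultiplicity w ∧
      -Real.log ‖T₀‖ / Real.log p = -(((m : ℝ) + 1) /
        (2 * (a * ((m : ℝ) - 1) + (G.map (Int.castRingHom ℂ)).rootMultiplicity w)))) ∧
    ∀ b : Polynomial ℂ, IsBFunction (MvPolynomial.map (Int.castRingHom ℂ) (discRes n a G)) b →
      b.eval ((-Real.log ‖T₀‖ / Real.log p : ℝ) : ℂ) = 0 :=
  ⟨Pool.Agent.H942.DP.pole_list hn ha hG hp hμ hT,
    fun _ hb => Pool.Agent.H942.DP.pole_root hn ha hG hp hμ hT hb⟩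

end Pool.Agent.Results.MP_5d9b3c_ag.DiscriminantTimesResultant
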