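import Pool.Agent.H942.KQ.Fin

set_option autoImplicit false

/-! # Denef's question for the discriminants of the complex reflection groups `G(m, p, n)` and other
# Kummer covers of discriminants, EVERY prime

Let `e ≥ 2`, `κ ≠ 0` an integer, and let `q, x_1, …, x_{n-1}` be the coordinates of the affine space of
dimension `n ≥ 1`. Let

  `h = T ^ n + x_{n-1} T ^ (n-1) + ⋯ + x_1 T + κ q ^ e`,
  `f = disc(h) ^ a * Res(h, G) * q ^ b ∈ ℤ[q, x_1, …, x_{n-1}]`,   `a ≥ 1`, `b ≥ 0`,

where `G ∈ ℤ[T]` is any polynomial with `G(0) ≠ 0` (`Res(h, G)` is, up to sign, the product of the values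
of `G` at the roots of `h`; a factor `T` of `G` would only change `f` by the factor `± κ q ^ e`). For
`e = 1`, `κ = 1` these are polynomials of `DiscriminantTimesResultant`; for `e ≥ 2`, `f` is the pull back
of such a polynomial under the cover `q ↦ κ q ^ e`, ramified along the hyperplane `h(0) = 0`, which is
tangent to the discriminant.

Reflection groups. The group `G(m, p, n)` (`p ∣ m`) acts on the space with the coordinates `y_i` with the
basic invariants `q = (y_1 ⋯ y_n) ^ (m / p)` and, up to signs, the coefficients `x_i`, `i ≥ 1`, of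
`h = ∏ (T - y_i ^ m)`; here `h(0) = (-1) ^ n q ^ p`. So for `e = p`, `κ = (-1) ^ n`, `G = 1` the `f` are the
discriminants of these groups for `p ≥ 2`, with all multiplicities: `disc(h)` belongs to the reflections
`y_i ↔ ζ y_j`, and `q` to the reflections in `y_i = 0` (if `p < m`). For instance `G(2, 2, n) = D_n`; the
groups `G(m, 1, n)`, for instance `B_n`, are contained in `DiscriminantTimesResultant` (`G = T ^ b`). The
hypersurface `f = 0` has non-isolated singularities and may be arbitrarily bad modulo `ℓ`: the prime may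
divide `e`, `n!`, `κ`, the discriminant or the content of `G`.

For EVERY prime `ℓ` (here called `p`) the poles `T₀` of Igusa's Poincaré series of `f` are determined up
to finitely many values of `t₀ = - log |T₀| / log p`: `- (m + 2) / (2 a m)`, `2 ≤ m ≤ n`, or
`- (m + 1) / (2 (a (m - 1) + β))`, `1 ≤ m ≤ n`, `β` the multiplicity of a complex root of `G`, or
`- (e (m - 1) + 2) / (2 (a e (m - 1) + b))`, `1 ≤ m ≤ n`; and `t₀` is always a root of the Bernstein-Sato
polynomial of `f`, which is Denef's question.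

Method. `Pool/Agent/H942/KQ/` uses the results of `Pool/Agent/H942/DP/` (the case `e = 1`, all finite
extensions `K` of `ℚ_p` at once). Let `κ` be any nonzero element of `K`, also not integral, and consider
the generating series of the volumes of the level sets of `|f|_K ^ [K : ℚ_p]` in compact open sets of
points with integral coordinates and integral `h`. By induction on `n` this series is rational with an
explicit denominator:
* near a point with `q ≠ 0` the map to the space of the polynomials `h` is a chart (`lg_alpha`);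
* near a point with `q = 0`, `h = T ^ m g`, `g(0) ≠ 0`, `m < n`, the product is a chart from the product
  of two such spaces, for the constants `κ / g(0)` and `g(0)`, with `q = q_1 q_2` (`lg_beta`; here `e ≥ 2`
  is used, the cover is totally ramified at this point);
* near the origin the homothety of weights `1` for the roots and `n / e` for `q` gives a functional
  equation of the series (`Scal`, `Ind`).
Over `ℂ` the roots of the b-functions are those of `MP_a2a574_ag.ImprimitiveDiscriminants`
(`Pool/Agent/H942/KC/`). -/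

namespace Pool.Agent.Results.MP_5d9b3c_ag.ImprimitiveDiscriminants

open Pool.Agent.H628R4.TP (IsBFunction)
open Pool.Agent.W206.CU (poincare IsPoleOfOrder)

/-- The polynomial `h = T ^ n + x_{n-1} T ^ (n-1) + ⋯ + x_1 T + κ q ^ e`, where `q` is the variable with
the index `0`. -/
noncomputable def gen (n e : ℕ) (κ : ℤ) : Polynomial (MvPolynomial (Fin n) ℤ) :=
  Polynomial.X ^ n + ∑ i : Fin n,
    Polynomial.C (if (i : ℕ) = 0 then MvPolynomial.C κ * MvPolynomial.X i ^ e
      else MvPolynomial.X i) * Polynomial.X ^ (i : ℕ)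

/-- The polynomial `f = disc(h) ^ a * Res(h, G) * q ^ b`. -/
noncomputable def kummerDisc (n : ℕ) (hn : 0 < n) (a b e : ℕ) (κ : ℤ) (G : Polynomial ℤ) :
    MvPolynomial (Fin n) ℤ :=
  (gen n e κ).discr ^ a *
    Polynomial.resultant (gen n e κ) (G.map MvPolynomial.C) n G.natDegree *
    MvPolynomial.X ⟨0, hn⟩ ^ b

/-- **Denef's question for `f = disc(h) ^ a * Res(h, G) * q ^ b`**,
`h = T ^ n + x_{n-1} T ^ (n-1) + ⋯ + x_1 T + κ q ^ e`, `e ≥ 2`, every prime `p`. `poincare p f` is Igusa's
Poincaré series `∑_m a_m (p ^ (-n) T) ^ m`, `a_m` the number of zeros of `f` modulo `p ^ m`.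
`IsPoleOfOrder P T₀ μ`, `μ > 0`: `P` is the expansion of a rational function with a pole of order `μ`
at `T₀`. `IsBFunction f c`: `c(s) f ^ s = P(s) f ^ (s + 1)` with `P(s)` in the Weyl algebra, polynomial
in `s`; the Bernstein-Sato polynomial is one of these `c`. -/
theorem result (n a b e : ℕ) (hn : 0 < n) (ha : 1 ≤ a) (he : 2 ≤ e) (κ : ℤ) (hκ : κ ≠ 0)
    (G : Polynomial ℤ) (hG : G.eval 0 ≠ 0) (p : ℕ) (hp : p.Prime) (T₀ : ℂ) (μ : ℕ) (hμ : 0 < μ)
    (hT : IsPoleOfOrder (poincare p (kummerDisc n hn a b e κ G)) T₀ μ) :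
    ((∃ m : ℕ, 2 ≤ m ∧ m ≤ n ∧
      -Real.log ‖T₀‖ / Real.log p = -(((m : ℝ) + 2) / (2 * a * m))) ∨
    (∃ (m : ℕ) (w : ℂ), 1 ≤ m ∧ m ≤ n ∧
      1 ≤ (G.map (Int.castRingHom ℂ)).rootMultiplicity w ∧
      -Real.log ‖T₀‖ / Real.log p = -(((m : ℝ) + 1) /
        (2 * (a * ((m : ℝ) - 1) + (G.map (Int.castRingHom ℂ)).rootMultiplicity w)))) ∨
    ∃ m : ℕ, 1 ≤ m ∧ m ≤ n ∧ (2 ≤ m ∨ 1 ≤ b) ∧
      -Real.log ‖T₀‖ / Real.log p = -((e * ((m : ℝ) - 1) + 2) /
        (2 * (a * (e * ((m : ℝ) - 1)) + b)))) ∧
    ∀ c : Polynomial ℂ,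
      IsBFunction (MvPolynomial.map (Int.castRingHom ℂ) (kummerDisc n hn a b e κ G)) c →
      c.eval ((-Real.log ‖T₀‖ / Real.log p : ℝ) : ℂ) = 0 :=
  ⟨Pool.Agent.H942.DP.KQ.pole_listK hn ha he hκ hG hp hμ hT,
    fun _ hc => Pool.Agent.H942.DP.KQ.pole_rootK hn ha he hκ hG hp hμ hT hc⟩

end Pool.Agent.Results.MP_5d9b3c_ag.ImprimitiveDiscriminants
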