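import Pool.Agent.H940.E.Last

/-!
# Denef's question for polynomials with iterated weighted cones of linear type

Let `f ∈ ℤ[x_1, …, x_n]`. We prove for every prime `p` for which the germs of `f` at its zeros in `ℤ_p ^ n` are
in the class `Germ` that the numbers `t₀` of the poles of Igusa's Poincaré series of `f` are roots of the
Bernstein-Sato polynomial. The class contains the germs of

* all quasihomogeneous polynomials, in any number of variables, of degree `d` for weights `0 < w_i < d`,
  whose complex singular locus consists, outside of the origin, of curves with transversal
  quasihomogeneous isolated singularities (`qhom`); for example all forms of degree `≥ 2` whose complex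
  projective hypersurface has only isolated singularities, each of them quasihomogeneous (all reduced plane
  curves with such singularities, all surfaces in the projective three-space with rational double points);
* all quasihomogeneous products `∏ F_t ^ (a_t)` in three variables, with arbitrary multiplicities `a_t`,
  such that the reduced surface `∏ F_t = 0` has, outside of the origin, quasihomogeneous transversal
  singularities over `ℂ` (`SliceTup`; the germs outside of the origin are in the class by `slice` and
  `plane`, see `grm_three`); for example all arrangements of planes through the origin;
* all quasihomogeneous polynomials in three variables, with arbitrary transversal singularities, which are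
  of linear type over `ℂ`, or are killed by a polynomial vector field whose divergence does not vanish at
  the origin (`Vertex`);
* polynomials which are built from such polynomials by products in disjoint variables, powers, analytic
  coordinates over `ℚ_p`, units, cylinders and quasihomogeneous cones with `Vertex`, in any number of
  variables; so among others locally quasihomogeneous divisors of linear type, if the local coordinates
  exist over `ℚ_p`.

Linear type is proved for the polynomials in `qhom` (`wlty`, in `H940/W`) and for the products in
`SliceTup` (with the logarithmic Jacobian ideal, `wlty_tuple`). There is no hypothesis on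
`-(∑ w_i)/d`, the usual candidate of a weighted cone, which need not be a root of
the Bernstein-Sato polynomial; then it is not the number of a pole.

**Method.** (1) *Linear type* (`wlty`). By `x_i = y_i ^ (w_i)` the partial derivatives become forms `V_i` of
different degrees in the variables `y`, with finitely many common zeros in the projective space (`fin_lines`).
For generic forms `a_j` of the right degrees the `V_j - a_j V_0` and `L = ∑ w_i y_i ^ (w_i) a_i` have no
common zero (`exists_gen`, by a count of the transcendence degrees), so they are a regular sequence, and `L`
controls the embedded components at the origin (`core`). A projection gives the result for the variables `x`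
(`lty_descend`). (2) At the origin of a weighted cone `f` the torus gives the only new candidate `-(∑ w_i)/d`. If it is
not a root, then since the (logarithmic) Jacobian ideal is of linear type a vector field of weight zero
with a divergence whose constant term is not zero kills `f` (`mc`, `Bc`). The averages of the conjugates of
the eigenvalues of its linear part (`S/Avg`) in the graded Lie algebra of the vector fields of weight zero
give a derivation over `ℚ_p` which is diagonalizable with rational eigenvalues, of trace `≠ 0`, in weighted
homogeneous polynomial coordinates over `ℚ_p` (`second_w`): a second split torus. The two tori with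
their contractions `x_i ↦ p ^ (w_i + c v_i) x_i` show that there is no pole at all which is not a root
(`lp_wsec`). The roots of the Bernstein-Sato polynomials of the germs at the points `P ≠ 0` are roots at the
origin (`locEq1_of`). (3) Isolated singularities: see `H940/S` (the germ is weighted homogeneous over `ℂ`
only). Plane curves: Loeser's theorem in the library's form for every prime. Powers: `α / k` is a root for
`h ^ k` if `α` is a root for `h` (`sf_pow`).
-/

set_option autoImplicit false

namespace Pool.Agent.Results.MP_5d9b3c_ag.IteratedCones

open MvPolynomial Pool.Agent.H940.E
open Pool.Agent.H628R4.TP (IsBFunction)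

/-- **Denef's question for the polynomials with germs in the class.** Let `f ∈ ℤ[x_1, …, x_n]` be nonzero, let
`p` be a prime and `φ` an embedding of `ℚ_p` in `ℂ`. Suppose that for all zeros `P` of `f` with coordinates in
`ℤ_p` the germ of `f` at `P` is in the class `Germ p φ`. Let `b(s) f ^ s = P(s) f ^ (s + 1)`, for instance
`b = b_f`. Then Igusa's Poincaré series is the expansion of a rational function `Φ`, and
`t₀ = - log |T₀| / log p` is a root of `b` for every pole `T₀` of `Φ`. -/
theorem result {n : ℕ} (f : MvPolynomial (Fin n) ℤ) (hf0 : f ≠ 0) (p : ℕ) [Fact p.Prime]
    (φ : ℚ_[p] →+* ℂ)
    (H : ∀ P : Fin n → ℚ_[p], (∀ i, ‖P i‖ ≤ 1) → eval P (map (Int.castRingHom ℚ_[p]) f) = 0 →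
      Germ p φ n (trn P (map (Int.castRingHom ℚ_[p]) f)))
    (b : Polynomial ℂ) (hb : IsBFunction (map (Int.castRingHom ℂ) f) b) :
    ∃ Φ : RatFunc ℂ, ((Φ.denom : Polynomial ℂ) : PowerSeries ℂ) *
        Pool.Agent.W427.SMC.poincare p f = ((Φ.num : Polynomial ℂ) : PowerSeries ℂ) ∧
      ∀ T₀ : ℂ, Φ.denom.eval T₀ = 0 → b.eval ((-Real.log ‖T₀‖ / Real.log p : ℝ) : ℂ) = 0 := by
  have hQ : map (algebraMap ℚ ℚ_[p]) (map (Int.castRingHom ℚ) f) =
      map (Int.castRingHom ℚ_[p]) f := by
    rw [map_map]
    exact congrArg (fun r => map r f) (Subsingleton.elim _ _)
  have h0 : map (Int.castRingHom ℚ) f ≠ 0 := fun h => hf0
    ((map_eq_zero_iff _ (map_injective _ Int.cast_injective)).1 h)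
  rw [← hQ] at H
  exact Pool.Agent.T6.H26.zr_poin f (germ_ZR _ h0 φ H) b hb

end Pool.Agent.Results.MP_5d9b3c_ag.IteratedCones
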